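import Pool.Agent.Lib.MP_29fe3f_al.Final

/-!
# MP_29fe3f_al : derived length and Fitting index bounded by the zeros of a character

We answer question Q1 of Moretó and Sangroniz positively: there is a function `f` such that
`dl(G) ≤ f (M(G))` and `|G : F(G)| ≤ f (M(G))` for every finite solvable group `G`, where `M(G)`
is the maximal number of conjugacy classes on which an irreducible character of `G` vanishes.
-/

set_option autoImplicit false

namespace Pool.Agent.Results.MP_29fe3f_al.MoretoSangroniz

open CategoryTheory

/-- `v(χ)`: the number of conjugacy classes on which the character of `V` vanishes. -/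
noncomputable def zeros (G : Type) [Group G] (V : FDRep ℂ G) : ℕ :=
  Nat.card {c : ConjClasses G // ∃ g : G, ConjClasses.mk g = c ∧ V.character g = 0}

/-- `M(G)`: the maximum of `v(χ)` over the irreducible characters of `G`. -/
noncomputable def maxZeros (G : Type) [Group G] : ℕ :=
  sSup {n : ℕ | ∃ V : FDRep ℂ G, Simple V ∧ zeros G V = n}

/-- `dl(G)`: the least `n` such that the `n`-th derived subgroup is trivial. -/
noncomputable def derivedLength (G : Type) [Group G] : ℕ :=
  sInf {n : ℕ | derivedSeries G n = ⊥}

/-- `F(G)`: the subgroup generated by all nilpotent normal subgroups. -/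
def fitting (G : Type) [Group G] : Subgroup G :=
  sSup {N : Subgroup G | N.Normal ∧ Group.IsNilpotent N}

/-- **Main result.** The derived length and the index of the Fitting subgroup of a finite
solvable group are bounded in terms of `M(G)`. -/
theorem result : ∃ f : ℕ → ℕ, ∀ (G : Type) [Group G] [Finite G], Group.IsSolvable G →
    derivedLength G ≤ f (maxZeros G) ∧ (fitting G).index ≤ f (maxZeros G) := by
  obtain ⟨f, hf⟩ := Pool.Agent.Lib.MP_29fe3f_al.full_answer
  refine ⟨f, ?_⟩
  intro G _ _ hs
  cases nonempty_fintype G
  have hbound : ∀ V : FDRep ℂ G, Simple V → zeros G V ≤ maxZeros G := by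
    intro V hV
    have hbdd : BddAbove {n : ℕ | ∃ V : FDRep ℂ G, Simple V ∧ zeros G V = n} := by
      refine ⟨Nat.card (ConjClasses G), ?_⟩
      rintro n ⟨W, _, rfl⟩
      exact Nat.card_le_card_of_injective
        (fun c : {c : ConjClasses G // ∃ g : G, ConjClasses.mk g = c ∧ W.character g = 0} => c.1)
        Subtype.val_injective
    exact le_csSup hbdd ⟨V, hV, rfl⟩
  obtain ⟨h1, N, hN1, hN2, hN3⟩ := hf G hs (maxZeros G) hbound
  refine ⟨Nat.sInf_le h1, le_trans ?_ hN3⟩
  have hle : N ≤ fitting G := le_sSup ⟨hN1, hN2⟩
  exact Nat.le_of_dvd (Nat.pos_of_ne_zero Subgroup.index_ne_zero_of_finite)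
    (Subgroup.index_dvd_of_le hle)

end Pool.Agent.Results.MP_29fe3f_al.MoretoSangroniz
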